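import Mathlib

set_option autoImplicit false

namespace Pool.Agent.Results.MP_968ae6_lc.Union

/-- Semipaths in the database with edge relation `E`; the letter `(a, true)` is `a`, the letter
`(a, false)` is its inverse. -/
inductive SP {A V : Type} (E : V → A → V → Prop) : V → List (A × Bool) → V → Prop
  | nil (u) : SP E u [] u
  | fwd {u a v w l} : E u a v → SP E v l w → SP E u ((a, true) :: l) w
  | bwd {u a v w l} : E v a u → SP E v l w → SP E u ((a, false) :: l) w

/-- A C2RPQ with variables `Fin n` and a free tuple of length `k`. -/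
structure CQ (A : Type) (k : ℕ) where
  n : ℕ
  atoms : List (Fin n × RegularExpression (A × Bool) × Fin n)
  free : Fin k → Fin n

variable {A : Type} {k : ℕ}

def CQ.ans (Q : CQ A k) {V : Type} (E : V → A → V → Prop) : Set (Fin k → V) :=
  {t | ∃ h : Fin Q.n → V, h ∘ Q.free = t ∧
    ∀ r ∈ Q.atoms, ∃ l ∈ r.2.1.matches', SP E (h r.1) l (h r.2.2)}

def CQ.Acyclic (Q : CQ A k) : Prop :=
  (SimpleGraph.fromRel fun u v => ∃ r ∈ Q.atoms, r.1 = u ∧ r.2.2 = v).IsAcyclic

/-- `Q` is equivalent to the union of the queries of `U`. -/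
def CQ.EquivU (Q : CQ A k) (U : List (CQ A k)) : Prop :=
  ∀ (V : Type) [Finite V] (E : V → A → V → Prop), Q.ans E = ⋃ D ∈ U, D.ans E

def CQ.Equiv (Q Q' : CQ A k) : Prop :=
  ∀ (V : Type) [Finite V] (E : V → A → V → Prop), Q.ans E = Q'.ans E

open SimpleGraph

theorem sep {V : Type} {G : SimpleGraph V} (hG : G.IsAcyclic) {x y : V} (p : G.Walk x y)
    (hp : p.IsPath) {z : V} (q : G.Walk z x) (hq : q.IsPath) :
    ∃ m ∈ p.support, m ∈ q.support ∧ ∀ r : G.Walk z y, m ∈ r.support := by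
  classical
  induction q with
  | nil => exact ⟨_, p.start_mem_support, by simp, by simp⟩
  | @cons z z' x h q ih =>
    by_cases hz : z ∈ p.support
    · exact ⟨z, hz, by simp, by simp⟩
    rw [Walk.cons_isPath_iff] at hq
    obtain ⟨m, h1, h2, h3⟩ := ih p hp hq.1
    refine ⟨m, h1, by simp [h2], fun r => ?_⟩
    have hn : z ∉ (q.append p).toPath.1.support := fun e => by
      have := Walk.support_toPath_subset_support _ e
      rw [Walk.mem_support_append_iff] at this
      exact this.elim hq.2 hz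
    have e := (isAcyclic_iff_subsingleton_path.1 hG z y).elim r.toPath
      ⟨Walk.cons h (q.append p).toPath.1, (Walk.cons_isPath_iff _ _).2 ⟨(q.append p).toPath.2, hn⟩⟩
    apply Walk.support_toPath_subset_support
    rw [e]
    exact List.mem_cons_of_mem _ (h3 _)

theorem median {V : Type} {G : SimpleGraph V} (hG : G.IsAcyclic) (x y z : V) :
    ∃ m, (∀ r : G.Walk x y, m ∈ r.support) ∧ (∀ r : G.Walk z x, m ∈ r.support) ∧
      ∀ r : G.Walk z y, m ∈ r.support := by
  classical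
  by_cases h1 : G.Reachable x y
  · by_cases h2 : G.Reachable z x
    · obtain ⟨p⟩ := h1
      obtain ⟨q⟩ := h2
      obtain ⟨m, k1, k2, k3⟩ := sep hG _ p.toPath.2 _ q.toPath.2
      refine ⟨m, fun r => Walk.support_toPath_subset_support _ ?_, fun r => Walk.support_toPath_subset_support _ ?_, k3⟩
      · rwa [(isAcyclic_iff_subsingleton_path.1 hG _ _).elim r.toPath p.toPath]
      · rwa [(isAcyclic_iff_subsingleton_path.1 hG _ _).elim r.toPath q.toPath]
    · exact ⟨x, by simp, by simp, fun r => (h2 (r.reachable.trans h1.symm)).elim⟩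
  · exact ⟨z, fun r => (h1 r.reachable).elim, by simp, by simp⟩

theorem colour {V : Type} {G : SimpleGraph V} (hG : G.IsAcyclic) (t : Fin 3 → V) :
    ∃ m, ∃ κ : V → Fin 3, (∀ u v, G.Adj u v → u = m ∨ v = m ∨ κ u = κ v) ∧
      ∀ i, t i = m ∨ κ (t i) = i := by
  classical
  obtain ⟨m, h1, h2, h3⟩ := median hG (t 0) (t 1) (t 2)
  have k : ∀ x u v, G.Adj u v → u ≠ m → (∃ r : G.Walk v x, m ∉ r.support) →
      ∃ r : G.Walk u x, m ∉ r.support := fun x u v h hu ⟨r, hr⟩ =>
    ⟨.cons h r, by simp [hr, hu.symm]⟩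
  refine ⟨m, fun u => if ∃ r : G.Walk u (t 0), m ∉ r.support then 0 else
    if ∃ r : G.Walk u (t 1), m ∉ r.support then 1 else 2, fun u v h => ?_, fun i => ?_⟩
  · by_contra! hc
    apply hc.2.2
    simp only [show ∀ x, (∃ r : G.Walk u x, m ∉ r.support) ↔ ∃ r : G.Walk v x, m ∉ r.support from
      fun x => ⟨k x v u h.symm hc.2.1, k x u v h hc.1⟩]
  · refine or_iff_not_imp_left.2 fun h => ?_
    fin_cases i
    · exact if_pos ⟨.nil, by simpa [eq_comm] using h⟩
    · refine (if_neg fun ⟨r, hr⟩ => hr ?_).trans (if_pos ⟨.nil, by simpa [eq_comm] using h⟩)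
      simpa using h1 r.reverse
    · exact (if_neg fun ⟨r, hr⟩ => hr (h2 r)).trans (if_neg fun ⟨r, hr⟩ => hr (h3 r))

theorem SP.map {V W : Type} {E : V → A → V → Prop} {F : W → A → W → Prop} (φ : V → W)
    (hφ : ∀ u a v, E u a v → F (φ u) a (φ v)) {u l v} (h : SP E u l v) : SP F (φ u) l (φ v) := by
  induction h with
  | nil => exact .nil _
  | fwd h _ ih => exact .fwd (hφ _ _ _ h) ih
  | bwd h _ ih => exact .bwd (hφ _ _ _ h) ih

def M (Q : CQ A k) {V : Type} (E : V → A → V → Prop) (h : Fin Q.n → V) : Prop :=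
  ∀ r ∈ Q.atoms, ∃ l ∈ r.2.1.matches', SP E (h r.1) l (h r.2.2)

theorem M.map {Q : CQ A k} {V W : Type} {E : V → A → V → Prop} {F : W → A → W → Prop} (φ : V → W)
    (hφ : ∀ u a v, E u a v → F (φ u) a (φ v)) {h} (hm : M Q E h) : M Q F (φ ∘ h) :=
  fun r hr => let ⟨l, h1, h2⟩ := hm r hr; ⟨l, h1, h2.map φ hφ⟩

theorem glue {Q : CQ A 3} (hQ : Q.Acyclic) : ∃ m, ∀ {V : Type} (E : V → A → V → Prop)
    (h : Fin 3 → Fin Q.n → V), (∀ i, M Q E (h i)) → (∀ i j, h i m = h j m) →
      (fun i => h i (Q.free i)) ∈ Q.ans E := by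
  obtain ⟨m, κ, h1, h2⟩ := colour hQ Q.free
  refine ⟨m, fun E h hm e => ⟨fun u => h (κ u) u, funext fun i => ?_, fun r hr => ?_⟩⟩
  · rcases h2 i with k | k
    · simp only [Function.comp, k]; exact e _ _
    · simp [k]
  · by_cases k : r.1 = r.2.2
    · have := hm (κ r.1) r hr
      simpa only [← k] using this
    rcases h1 r.1 r.2.2 ((fromRel_adj ..).2 ⟨k, .inl ⟨r, hr, rfl, rfl⟩⟩) with k | k | k
    · have := hm (κ r.2.2) r hr
      simp only [k] at this ⊢
      rwa [e _ (κ r.2.2)]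
    · have := hm (κ r.1) r hr
      simp only [k] at this ⊢
      rwa [e (κ m) (κ r.1)]
    · simpa only [k] using hm (κ r.2.2) r hr

def a : RegularExpression (Fin 2 × Bool) := .char (0, true)
def b : RegularExpression (Fin 2 × Bool) := .char (1, true)

/-- The query `(x, ε + a, y) ∧ (y, ε + b, z) ∧ (x, ab, z)`. -/
def Q0 : CQ (Fin 2) 3 := ⟨3, [(0, 1 + a, 1), (1, 1 + b, 2), (0, a * b, 2)], id⟩

def U0 : List (CQ (Fin 2) 3) := [⟨3, [(0, a, 1), (1, b, 2)], id⟩,
  ⟨3, [(0, 1, 1), (1, b, 2), (1, a * b, 2)], id⟩, ⟨3, [(0, a, 1), (0, a * b, 1), (1, 1, 2)], id⟩,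
  ⟨3, [(0, 1, 1), (1, 1, 2), (1, a * b, 1)], id⟩]

section
variable {V : Type} {E : V → Fin 2 → V → Prop} {u v : V}

theorem sp0 : SP E u [] v ↔ u = v := ⟨fun h => by cases h; rfl, fun h => h ▸ .nil _⟩

theorem sp1 {c l} : SP E u ((c, true) :: l) v ↔ ∃ w, E u c w ∧ SP E w l v :=
  ⟨fun h => by cases h; exact ⟨_, ‹_›, ‹_›⟩, fun ⟨_, h, k⟩ => .fwd h k⟩

theorem m1 : (∃ l ∈ (1 : RegularExpression (Fin 2 × Bool)).matches', SP E u l v) ↔ u = v := by
  simp [sp0]

theorem ms {B : Type} {l w : List B} : l ∈ ({w} : Language B) ↔ l = w := Iff.rfl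

theorem mc {c} : (∃ l ∈ (RegularExpression.char (c, true)).matches', SP E u l v) ↔ E u c v := by
  simp [sp0, sp1, ms]

theorem mab : (∃ l ∈ (a * b).matches', SP E u l v) ↔ ∃ w, E u 0 w ∧ E w 1 v := by
  simp [a, b, Language.mem_mul, sp0, sp1, ms]

theorem mor {r s : RegularExpression (Fin 2 × Bool)} : (∃ l ∈ (r + s).matches', SP E u l v) ↔
    (∃ l ∈ r.matches', SP E u l v) ∨ ∃ l ∈ s.matches', SP E u l v := by
  simp [Language.mem_add, or_and_right, exists_or]

theorem q0 {t : Fin 3 → V} : t ∈ Q0.ans E ↔ (t 0 = t 1 ∨ E (t 0) 0 (t 1)) ∧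
    (t 1 = t 2 ∨ E (t 1) 1 (t 2)) ∧ ∃ w, E (t 0) 0 w ∧ E w 1 (t 2) := by
  change (∃ h : Fin 3 → V, h = t ∧ ∀ r ∈ ([(0, 1 + a, 1), (1, 1 + b, 2), (0, a * b, 2)] :
    List (Fin 3 × _ × Fin 3)), ∃ l ∈ RegularExpression.matches' r.2.1, SP E (h r.1) l (h r.2.2)) ↔ _
  simp only [exists_eq_left, List.mem_cons, List.not_mem_nil, or_false, forall_eq_or_imp, forall_eq,
    mab, mor, m1]
  simp only [a, b, mc]

end

def db {n : ℕ} (l : List (Fin n × Fin 2 × Fin n)) (u : Fin n) (c : Fin 2) (v : Fin n) : Prop :=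
  (u, c, v) ∈ l

instance {n : ℕ} (l : List (Fin n × Fin 2 × Fin n)) (u c v) : Decidable (db l u c v) :=
  inferInstanceAs (Decidable (_ ∈ _))

theorem result : ∃ Q : CQ (Fin 2) 3, Function.Injective Q.free ∧
    (∃ U : List (CQ (Fin 2) 3), (∀ D ∈ U, D.Acyclic ∧ Function.Injective D.free) ∧ Q.EquivU U) ∧
    ¬ ∃ Q' : CQ (Fin 2) 3, Q'.Acyclic ∧ Q.Equiv Q' := by
  refine ⟨Q0, Function.injective_id, ⟨U0, ?_, fun V _ E => ?_⟩, ?_⟩
  · simp only [U0, List.forall_mem_cons, List.not_mem_nil, false_imp_iff, implies_true, and_true]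
    refine ⟨⟨?_, ?_⟩, ⟨?_, ?_⟩, ⟨?_, ?_⟩, ⟨?_, ?_⟩⟩ <;> first | exact Function.injective_id | skip
    all_goals
      refine (isAcyclic_starGraph (1 : Fin 3)).anti fun u v h => ?_
      revert h
      fin_cases u <;> fin_cases v <;> simp [starGraph]
  · ext t
    rw [q0]
    simp only [U0, List.mem_cons, List.not_mem_nil, or_false, Set.iUnion_iUnion_eq_or_left,
      Set.iUnion_iUnion_eq_left, Set.mem_union, CQ.ans, Set.mem_ofPred_eq, Function.comp_id,
      exists_eq_left, mab, m1, forall_eq_or_imp, forall_eq]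
    simp only [a, b, mc]
    grind
  · rintro ⟨Q, hQ, e⟩
    obtain ⟨m, hm⟩ := glue hQ
    obtain ⟨h, e1, h1⟩ : ![0, 0, 2] ∈ Q.ans (db (n := 3) [(0, 1, 2), (0, 0, 1), (1, 1, 2)]) := by
      rw [← e, q0]; decide
    obtain ⟨g, e2, h2⟩ : ![0, 2, 2] ∈ Q.ans (db (n := 3) [(0, 0, 2), (0, 0, 1), (1, 1, 2)]) := by
      rw [← e, q0]; decide
    have f1 := congrFun e1
    have f2 := congrFun e2
    simp only [Function.comp] at f1 f2
    by_cases k1 : h m = 0
    · by_cases k2 : g m = 2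
      · have := hm (db (n := 5) [(0, 1, 2), (0, 0, 1), (1, 1, 2), (3, 0, 0), (3, 0, 4), (4, 1, 0)])
          ![![0, 1, 2] ∘ h, ![0, 1, 2] ∘ h, ![3, 4, 0] ∘ g]
          (by
            have c1 := M.map (F := db (n := 5)
              [(0, 1, 2), (0, 0, 1), (1, 1, 2), (3, 0, 0), (3, 0, 4), (4, 1, 0)]) ![0, 1, 2] (by decide) h1
            have c2 := M.map (F := db (n := 5)
              [(0, 1, 2), (0, 0, 1), (1, 1, 2), (3, 0, 0), (3, 0, 4), (4, 1, 0)]) ![3, 4, 0] (by decide) h2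
            intro i; fin_cases i <;> assumption)
          (by intro i j; fin_cases i <;> fin_cases j <;> simp [k1, k2])
        rw [← e, q0] at this
        simp only [Matrix.cons_val, Function.comp, f1, f2] at this
        revert this; decide
      · have := hm (db (n := 4) [(0, 0, 2), (0, 0, 1), (1, 1, 2), (0, 0, 3), (1, 1, 3)])
          ![![0, 1, 2] ∘ g, ![0, 1, 2] ∘ g, ![0, 1, 3] ∘ g]
          (by
            have c1 := M.map (F := db (n := 4)
              [(0, 0, 2), (0, 0, 1), (1, 1, 2), (0, 0, 3), (1, 1, 3)]) ![0, 1, 2] (by decide) h2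
            have c2 := M.map (F := db (n := 4)
              [(0, 0, 2), (0, 0, 1), (1, 1, 2), (0, 0, 3), (1, 1, 3)]) ![0, 1, 3] (by decide) h2
            intro i; fin_cases i <;> assumption)
          (by
            have : ![0, 1, 2] (g m) = (![0, 1, 3] (g m) : Fin 4) := by revert k2; generalize g m = s; revert s; decide
            intro i j; fin_cases i <;> fin_cases j <;> simp [this])
        rw [← e, q0] at this
        simp only [Matrix.cons_val, Function.comp, f2] at this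
        revert this; decide
    · have := hm (db (n := 4) [(0, 1, 2), (0, 0, 1), (1, 1, 2), (3, 1, 2), (3, 0, 1)])
        ![![0, 1, 2] ∘ h, ![3, 1, 2] ∘ h, ![0, 1, 2] ∘ h]
        (by
          have c1 := M.map (F := db (n := 4)
            [(0, 1, 2), (0, 0, 1), (1, 1, 2), (3, 1, 2), (3, 0, 1)]) ![0, 1, 2] (by decide) h1
          have c2 := M.map (F := db (n := 4)
            [(0, 1, 2), (0, 0, 1), (1, 1, 2), (3, 1, 2), (3, 0, 1)]) ![3, 1, 2] (by decide) h1
          intro i; fin_cases i <;> assumption)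
        (by
          have : ![0, 1, 2] (h m) = (![3, 1, 2] (h m) : Fin 4) := by revert k1; generalize h m = s; revert s; decide
          intro i j; fin_cases i <;> fin_cases j <;> simp [this])
      rw [← e, q0] at this
      simp only [Matrix.cons_val, Function.comp, f1] at this
      revert this; decide

end Pool.Agent.Results.MP_968ae6_lc.Union
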